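import Pool.Agent.Y840.CT.Low
import Pool.Agent.H141R2.FS.Main1

/-!
# Four squares and Chen's theorem for the quadruple `p - 2, p, p + 4, p + 10`

Every large `n` not divisible by `4` is `x² + y² + z² + w²` in natural numbers with
`p = x + 2 y + 5 z` prime, one of `p - 2`, `p + 4`, `p + 10` (whichever one likes) a product of at most
two primes, and the other two almost primes.
-/

set_option autoImplicit false

open Finset Filter

namespace Pool.Agent.Results.MP_40574a_nt.ChenQuadruple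

/-- `k ≥ 1` is a product of at most `t` primes, all of them larger than `y` -/
def Rough (t : ℕ) (y : ℝ) (k : ℤ) : Prop :=
  0 < k ∧ k.natAbs.primeFactorsList.length ≤ t ∧ ∀ q : ℕ, q.Prime → (q : ℤ) ∣ k → y < q

/-- `p` is the value of `x + 2 y + 5 z` at a representation of `n` as a sum of four squares of
natural numbers -/
def Val (n p : ℕ) : Prop :=
  ∃ x y z w : ℕ, n = x ^ 2 + y ^ 2 + z ^ 2 + w ^ 2 ∧ p = x + 2 * y + 5 * z

/-- the three numbers `p - 2`, `p + 4`, `p + 10` -/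
def num (p : ℕ) (i : Fin 3) : ℤ := ![(p : ℤ) - 2, p + 4, p + 10] i

open Classical in
/-- with `X = ⌊√(30 n)⌋`: the primes `p > X ^ (1/t)` of `(A, B]` of the form `x + 2 y + 5 z`,
`n = x² + y² + z² + w²`, for which `p - 2`, `p + 4`, `p + 10` are products of at most `t` primes
`> X ^ (1/t)`, and the `i`-th of them is a product of at most two primes, both `> X ^ (1/9)` -/
noncomputable def P (t n : ℕ) (i : Fin 3) (A B : ℕ) : Finset ℕ :=
  (Ioc A B).filter (fun p : ℕ => p.Prime ∧ Val n p ∧ ((Nat.sqrt (30 * n) : ℕ) : ℝ) ^ (1 / (t : ℝ)) < p ∧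
    Rough 2 (((Nat.sqrt (30 * n) : ℕ) : ℝ) ^ (1 / 9 : ℝ)) (num p i) ∧
    ∀ j : Fin 3, Rough t (((Nat.sqrt (30 * n) : ℕ) : ℝ) ^ (1 / (t : ℝ))) (num p j))

/-- the shifts -/
def Hs : Finset ℤ := {2, -4, -10}

/-- the shift of the `i`-th number -/
def hs (i : Fin 3) : ℤ := ![2, -4, -10] i

theorem hs_mem (i : Fin 3) : hs i ∈ Hs := by
  unfold hs Hs
  fin_cases i <;> simp

theorem mem_Hs {h : ℤ} (hh : h ∈ Hs) : ∃ i, h = hs i := by
  unfold Hs at hh
  rw [mem_insert, mem_insert, mem_singleton] at hh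
  rcases hh with rfl | rfl | rfl
  · exact ⟨0, rfl⟩
  · exact ⟨1, rfl⟩
  · exact ⟨2, rfl⟩

theorem num_hs (p : ℕ) (i : Fin 3) : hs i - p = - num p i := by
  unfold hs num
  fin_cases i
  · show (2 : ℤ) - p = -((p : ℤ) - 2)
    ring
  · show (-4 : ℤ) - p = -((p : ℤ) + 4)
    ring
  · show (-10 : ℤ) - p = -((p : ℤ) + 10)
    ring

theorem sys {X : ℕ} (hX : 10 ≤ X) : Pool.Agent.Y840.CT.Sys 3 X Hs := by
  constructor
  · exact card_le_three
  · intro h hh
    unfold Hs at hh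
    rw [mem_insert, mem_insert, mem_singleton] at hh
    rw [abs_le]
    rcases hh with rfl | rfl | rfl <;> refine ⟨by norm_num, ?_, ?_⟩ <;> omega
  · intro q hq
    rcases Nat.lt_or_ge q 5 with hq5 | hq5
    · interval_cases q
      · exact absurd hq (by norm_num)
      · exact absurd hq (by norm_num)
      · decide
      · decide
      · exact absurd hq (by norm_num)
    · unfold Pool.Agent.Y840.CT.rho Hs
      refine lt_of_le_of_lt (card_image_le.trans ?_) hq5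
      exact card_le_four

theorem rough_of {t : ℕ} {y : ℝ} {k l : ℤ} (hkl : l = -k) (hk : Pool.Agent.Y840.CT.Rough t y l)
    (h0 : 0 ≤ k) : Rough t y k := by
  obtain ⟨h1, h2, h3⟩ := hk
  subst hkl
  refine ⟨by omega, ?_, ?_⟩
  · rwa [Int.natAbs_neg] at h2
  · intro q hq hd
    exact h3 q hq ((dvd_neg).2 hd)

theorem of_rough {t : ℕ} {y : ℝ} {k l : ℤ} (hkl : l = -k) (hk : Rough t y k) :
    Pool.Agent.Y840.CT.Rough t y l := by
  obtain ⟨h1, h2, h3⟩ := hk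
  subst hkl
  refine ⟨by omega, ?_, ?_⟩
  · rwa [Int.natAbs_neg]
  · intro q hq hd
    exact h3 q hq ((dvd_neg).1 hd)

theorem val {n p : ℕ} (h4 : ¬ 4 ∣ n) (hn : 30 ≤ n) (hp : p.Prime) (h1 : 29 * n ≤ p ^ 2) (h2 : p ^ 2 ≤ 30 * n) :
    Val n p := by
  have h5 : 5 < p := by
    by_contra hcon
    push Not at hcon
    have : p ^ 2 ≤ 5 ^ 2 := Nat.pow_le_pow_left hcon 2
    omega
  have hc : Nat.Coprime p 30 := by
    rw [Nat.Prime.coprime_iff_not_dvd hp]
    intro hd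
    have h30 : (30 : ℕ) = 2 * 3 * 5 := by norm_num
    rw [h30, hp.dvd_mul, hp.dvd_mul] at hd
    rcases hd with (hd | hd) | hd
    · have := Nat.le_of_dvd (by norm_num) hd
      omega
    · have := Nat.le_of_dvd (by norm_num) hd
      omega
    · have := Nat.le_of_dvd (by norm_num) hd
      omega
  obtain ⟨x, y, z, w, h3, h6⟩ := Pool.Agent.H141R2.FS.rep h4 hc h1 h2
  exact ⟨x, y, z, w, h3, h6.symm⟩

theorem P_eq {t n : ℕ} (h4 : ¬ 4 ∣ n) (hn : 30 ≤ n) (i : Fin 3) {A B : ℕ} (hA : 29 * n ≤ A ^ 2)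
    (hB : B ^ 2 ≤ 30 * n) :
    P t n i A B = Pool.Agent.Y840.CT.Good t (Nat.sqrt (30 * n)) A B Hs (hs i) := by
  classical
  unfold P Pool.Agent.Y840.CT.Good
  apply filter_congr
  intro p hp
  rw [mem_Ioc] at hp
  constructor
  · rintro ⟨a1, -, a2, a3, a4⟩
    refine ⟨a1, a2, of_rough (num_hs _ _) a3, ?_⟩
    intro h hh
    obtain ⟨j, rfl⟩ := mem_Hs hh
    exact of_rough (num_hs _ _) (a4 j)
  · rintro ⟨a1, a2, a3, a4⟩
    have hpos : ∀ j : Fin 3, 0 ≤ num p j := by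
      intro j
      have hp2 := a1.two_le
      unfold num
      fin_cases j
      · show 0 ≤ (p : ℤ) - 2
        omega
      · show 0 ≤ (p : ℤ) + 4
        omega
      · show 0 ≤ (p : ℤ) + 10
        omega
    refine ⟨a1, ?_, a2, rough_of (num_hs _ _) a3 (hpos i), ?_⟩
    · apply val h4 hn a1
      · exact hA.trans (Nat.pow_le_pow_left hp.1.le 2)
      · exact (Nat.pow_le_pow_left hp.2 2).trans hB
    · intro j
      exact rough_of (num_hs _ _) (a4 _ (hs_mem j)) (hpos j)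

/-- Let `t`, `c` be suitable absolute constants. (1) For every `θ > 0`, every large `n` with `4 ∤ n`, all
`A`, `B` with `29 n ≤ A²`, `B² ≤ 30 n`, `B - A ≥ θ √n`, and all `i`, the set `P` has at least
`c (B - A) / log ^ 4 n` elements. (2) For all `k`, `θ`, `δ` there is `D` such that moreover every subset
of `P` with at least `δ #P` elements contains a `k`-term progression with difference at most
`log ^ D n`. -/
theorem result : ∃ t : ℕ, 1 ≤ t ∧ ∃ c : ℝ, 0 < c ∧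
    (∀ θ : ℝ, 0 < θ → ∃ n₀ : ℕ, ∀ n : ℕ, n₀ ≤ n → ¬ 4 ∣ n → ∀ A B : ℕ, 29 * n ≤ A ^ 2 →
      B ^ 2 ≤ 30 * n → θ * √n ≤ (B : ℝ) - A → ∀ i : Fin 3,
        c * ((B : ℝ) - A) / Real.log n ^ 4 ≤ ((P t n i A B).card : ℝ)) ∧
    (∀ k : ℕ, ∀ θ δ : ℝ, 0 < θ → 0 < δ → ∃ D n₀ : ℕ, ∀ n : ℕ, n₀ ≤ n → ¬ 4 ∣ n → ∀ A B : ℕ,
      29 * n ≤ A ^ 2 → B ^ 2 ≤ 30 * n → θ * √n ≤ (B : ℝ) - A → ∀ i : Fin 3,
        ∀ S : Finset ℕ, S ⊆ P t n i A B → δ * ((P t n i A B).card : ℝ) ≤ S.card →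
          ∃ a d : ℕ, 1 ≤ d ∧ (d : ℝ) ≤ Real.log n ^ D ∧ ∀ j < k, a + j * d ∈ S) := by
  obtain ⟨t, ht, c, hc, H1, H2⟩ := Pool.Agent.Y840.CT.genI 3
  obtain ⟨c2, hc2, hV⟩ := Pool.Agent.Y840.CT.Vp_low 3
  -- sizes
  have hsz : ∀ n : ℕ, 30 ≤ n → 10 ≤ Nat.sqrt (30 * n) ∧ n ≤ 30 * n ∧ ((Nat.sqrt (30 * n) : ℕ) : ℝ) ≤ 6 * √n ∧
      0 < Real.log (Nat.sqrt (30 * n) : ℕ) ∧ Real.log (Nat.sqrt (30 * n) : ℕ) ≤ Real.log n := by
    intro n hn
    have hn0 : (30 : ℝ) ≤ n := by exact_mod_cast hn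
    have h1 : 10 ≤ Nat.sqrt (30 * n) := by
      rw [Nat.le_sqrt']
      omega
    have h2 : ((Nat.sqrt (30 * n) : ℕ) : ℝ) ≤ √((30 * n : ℕ) : ℝ) := Real.nat_sqrt_le_real_sqrt
    have h3 : √((30 * n : ℕ) : ℝ) ≤ 6 * √n := by
      rw [Real.sqrt_le_left (by positivity), mul_pow, Real.sq_sqrt (by positivity)]
      push_cast
      linarith
    have h4 : (10 : ℝ) ≤ (Nat.sqrt (30 * n) : ℕ) := by exact_mod_cast h1
    refine ⟨h1, by omega, h2.trans h3, Real.log_pos (by linarith), ?_⟩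
    apply Real.log_le_log (by linarith)
    refine h2.trans ?_
    rw [Real.sqrt_le_left (by positivity)]
    push_cast
    nlinarith
  refine ⟨t, ht, c * c2, by positivity, ?_, ?_⟩
  · intro θ hθ
    obtain ⟨X₀, h1⟩ := H1 (θ / 6) (by positivity)
    refine ⟨max (X₀ ^ 2) 30, fun n hn h4 A B hA hB hAB i => ?_⟩
    have hn30 : 30 ≤ n := (le_max_right _ _).trans hn
    have hnX0 : X₀ ^ 2 ≤ n := (le_max_left _ _).trans hn
    obtain ⟨z1, z2, z3, z4, z5⟩ := hsz n hn30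
    have hnX : X₀ ≤ Nat.sqrt (30 * n) := by
      rw [Nat.le_sqrt']
      omega
    have hS := sys z1
    have hBX : B ≤ Nat.sqrt (30 * n) := by
      rw [Nat.le_sqrt']
      exact hB
    have hBA : 0 ≤ (B : ℝ) - A := le_trans (by positivity) hAB
    rw [P_eq h4 hn30 i hA hB]
    refine le_trans ?_ (h1 _ hnX _ hS _ (hs_mem i) A B hBX ?_)
    · have h5 := hV (Nat.sqrt (30 * n)) (by omega) Hs hS.card hS.loc
      have h6 : c2 / Real.log n ^ 4 ≤ Pool.Agent.Y840.CT.Vp Hs (Nat.sqrt (30 * n)) := by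
        refine le_trans ?_ h5
        apply div_le_div_of_nonneg_left hc2.le (by positivity)
        exact pow_le_pow_left₀ z4.le z5 _
      calc c * c2 * ((B : ℝ) - A) / Real.log n ^ 4 = c * ((B : ℝ) - A) * (c2 / Real.log n ^ 4) := by ring
        _ ≤ _ := mul_le_mul_of_nonneg_left h6 (by positivity)
    · calc θ / 6 * ((Nat.sqrt (30 * n) : ℕ) : ℝ) ≤ θ / 6 * (6 * √n) := by gcongr
        _ = θ * √n := by ring
        _ ≤ _ := hAB
  · intro k θ δ hθ hδ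
    obtain ⟨D, X₀, h1⟩ := H2 k (θ / 6) δ (by positivity) hδ
    refine ⟨D, max (X₀ ^ 2) 30, fun n hn h4 A B hA hB hAB i S hS1 hS2 => ?_⟩
    have hn30 : 30 ≤ n := (le_max_right _ _).trans hn
    have hnX0 : X₀ ^ 2 ≤ n := (le_max_left _ _).trans hn
    obtain ⟨z1, z2, z3, z4, z5⟩ := hsz n hn30
    have hnX : X₀ ≤ Nat.sqrt (30 * n) := by
      rw [Nat.le_sqrt']
      omega
    have hS := sys z1
    have hBX : B ≤ Nat.sqrt (30 * n) := by
      rw [Nat.le_sqrt']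
      exact hB
    rw [P_eq h4 hn30 i hA hB] at hS1 hS2
    obtain ⟨a, d, h2, h3, h5⟩ := h1 _ hnX _ hS _ (hs_mem i) A B hBX (by
      calc θ / 6 * ((Nat.sqrt (30 * n) : ℕ) : ℝ) ≤ θ / 6 * (6 * √n) := by gcongr
        _ = θ * √n := by ring
        _ ≤ _ := hAB) S hS1 hS2
    exact ⟨a, d, h2, h3.trans (pow_le_pow_left₀ z4.le z5 D), h5⟩

end Pool.Agent.Results.MP_40574a_nt.ChenQuadruple
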