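import Mathlib
import Pool.Agent.Y827.FS.Her

/-!
# Four squares and prime quadruples, for every large integer and every large admissible set of shifts

Q1 asks for a representation of `n` as a sum of four squares for which `p = x + 2 y + 5 z` and `p - 2`, `p + 4`,
`p + 10` are primes. There is an absolute constant `0 < κ < 1` such that for all `k` and `ε > 0` there are `z` and
`n₀` such that for every `η > 0` and every large `n` not divisible by `4`: EVERY set `V` of at least `n₀` integers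
`|v| ≤ √n / 200` which misses a residue class modulo each prime `p ≤ z` has at least `(δ - ε) |V| ^ (k + 1)` ordered
`(k + 1)`-tuples of distinct elements `v_0, ..., v_k` for which there are at least `n ^ (1/2 - η)` places `q` such
that all the numbers `q + v_0, ..., q + v_k` are primes and values of `x + 2 y + 5 z` at representations of `n` as a
sum of four squares of natural numbers. Here `δ = (1 / (4 - κ)) ^ k`, and `δ = 1/3` for `k = 1`; so for more than
`1/64 - ε` of the quadruples (`k = 3`).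

Proof: the uniform coloured Maynard-Tao theorem with a constant below `4` and with the variable in a narrow window
(`Pool.Agent.TH899.UG.NW.exactW`), the combinatorial theorem `Pool.Agent.W25.QL.main_gen`, and the representation
lemma of `Pool.Agent.H141R2.FS`.
-/

set_option autoImplicit false

open Finset Filter

namespace Pool.Agent.Results.MP_40574a_nt.HereditaryQuadruples

/-- `p` is the value of `x + 2 y + 5 z` at a representation of `n` as a sum of four squares of
natural numbers -/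
def Val (n p : ℕ) : Prop :=
  ∃ x y z w : ℕ, n = x ^ 2 + y ^ 2 + z ^ 2 + w ^ 2 ∧ p = x + 2 * y + 5 * z

open Classical in
/-- the `q < n` for which all the numbers `q + v i` are primes and values of `x + 2 y + 5 z` at representations
of `n` -/
noncomputable def places {k : ℕ} (n : ℕ) (v : Fin (k + 1) → ℤ) : Finset ℕ :=
  (range n).filter (fun q => ∀ i, ∃ p : ℕ, (p : ℤ) = q + v i ∧ p.Prime ∧ Val n p)

/-- the proportion: `1 / 3` for pairs, `(1 / (4 - κ)) ^ k` for `(k + 1)`-tuples -/
noncomputable def proportion (κ : ℝ) (k : ℕ) : ℝ := if k = 1 then 1 / 3 else (1 / (4 - κ)) ^ k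

theorem result : ∃ κ : ℝ, 0 < κ ∧ κ < 1 ∧ ∀ (k : ℕ) (ε : ℝ), 0 < ε → ∃ z n₀ : ℕ, ∀ η : ℝ, 0 < η →
    ∃ n₁ : ℕ, ∀ n : ℕ, n₁ ≤ n → ¬ 4 ∣ n → ∀ V : Finset ℤ, (∀ v ∈ V, (200 * v) ^ 2 ≤ n) →
      (∀ p : ℕ, p ≤ z → p.Prime → ∃ r : ℤ, ∀ v ∈ V, ¬ (p : ℤ) ∣ r + v) → n₀ ≤ V.card →
      ∃ G : Finset (Fin (k + 1) → ℤ), (∀ v ∈ G, (∀ i, v i ∈ V) ∧ Function.Injective v) ∧
        (proportion κ k - ε) * (V.card : ℝ) ^ (k + 1) ≤ (G.card : ℝ) ∧
        ∀ v ∈ G, (n : ℝ) ^ (1 / 2 - η) ≤ ((places n v).card : ℝ) := by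
  classical
  obtain ⟨κ, h1, h2, h3⟩ := Pool.Agent.Y827.FS.main
  refine ⟨κ, h1, h2, fun k ε hε => ?_⟩
  obtain ⟨z, n₀, h⟩ := h3 k ε hε
  refine ⟨z, n₀, fun η hη => ?_⟩
  obtain ⟨n₁, hn₁⟩ := eventually_atTop.1 (h η hη)
  refine ⟨n₁, fun n hn h4 V hV hadm hVn => ⟨_, ?_, hn₁ n hn h4 V hV hadm hVn, ?_⟩⟩
  · intro v hv
    rw [mem_filter, Fintype.mem_piFinset] at hv
    exact ⟨hv.1, hv.2.1⟩
  · intro v hv
    rw [mem_filter] at hv
    refine hv.2.2.trans ?_
    rw [Nat.cast_le]
    unfold Pool.Agent.Y827.FS.pl places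
    apply card_le_card
    intro q hq
    rw [mem_filter] at hq ⊢
    exact ⟨hq.1, fun i => hq.2 (v i) (mem_image_of_mem v (mem_univ i))⟩

end Pool.Agent.Results.MP_40574a_nt.HereditaryQuadruples
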