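import Pool.Agent.Y879.PR.Inst
import Pool.Agent.H141R2.FS.Main1

/-!
# Four squares and primes: the law of the represented almost prime quadruples

For every large `n` not divisible by `4`: the ACTUAL primes among the values `p = x + 2 y + 5 z`,
`n = x² + y² + z² + w²`, with `p - 2`, `p + 4`, `p + 10` almost prime: their number in all windows, and the
Poisson law of the represented almost prime quadruples which follow them.
-/

set_option autoImplicit false

open Finset Filter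

namespace Pool.Agent.Results.MP_40574a_nt.RepresentedPrimesLaw

/-- `p` is the value of `x + 2 y + 5 z` at a representation of `n` as a sum of four squares of
natural numbers -/
def Val (n p : ℕ) : Prop :=
  ∃ x y z w : ℕ, n = x ^ 2 + y ^ 2 + z ^ 2 + w ^ 2 ∧ p = x + 2 * y + 5 * z

/-- the four numbers `p - 2`, `p`, `p + 4`, `p + 10` -/
def num (p : ℕ) (i : Fin 4) : ℕ := ![p - 2, p, p + 4, p + 10] i

/-- `p > 2` is a value and none of `p - 2`, `p`, `p + 4`, `p + 10` has a prime factor `q ≤ n ^ (1 / r)` -/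
def Good (n r p : ℕ) : Prop :=
  2 < p ∧ Val n p ∧ ∀ q : ℕ, q.Prime → (q : ℝ) ≤ (n : ℝ) ^ (1 / (r : ℝ)) → ∀ i, ¬ q ∣ num p i

/-- `0` for `q = 2, 3, 5`, otherwise `4` -/
def nu (q : ℕ) : ℕ := if q ∣ 30 then 0 else 4

/-- the product of `1 - nu(q) / q` over the primes `q ≤ n ^ (1 / r)` -/
noncomputable def V (n r : ℕ) : ℝ :=
  ∏ q ∈ (Icc 1 ⌊(n : ℝ) ^ (1 / (r : ℝ))⌋₊).filter Nat.Prime, (1 - (nu q : ℝ) / q)

/-- the product of `(1 - nu(q) / q) / (1 - 1 / q)` over the primes `q ≤ n ^ (1 / r)` -/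
noncomputable def W (n r : ℕ) : ℝ :=
  ∏ q ∈ (Icc 1 ⌊(n : ℝ) ^ (1 / (r : ℝ))⌋₊).filter Nat.Prime, (1 - (nu q : ℝ) / q) / (1 - 1 / (q : ℝ))

open Classical in
/-- the good `p` in `(A, A + L]` whose `i`-th number is PRIME -/
noncomputable def P (n r : ℕ) (i : Fin 4) (A L : ℕ) : Finset ℕ :=
  (Ioc A (A + L)).filter (fun p => (num p i).Prime ∧ Good n r p)

open Classical in
/-- the number of the good `l` in `(p, p + 30 T]` with `l ≡ p` modulo `30` -/
noncomputable def Next (n r T p : ℕ) : ℕ :=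
  ((Ioc p (p + 30 * T)).filter (fun l => l % 30 = p % 30 ∧ Good n r l)).card

/-- the pattern -/
def h : Fin 4 → ℕ := ![0, 2, 6, 12]

open Pool.Agent.Y879.PR in
lemma pat_h : Pat2 30 h {11, 17} where
  tup := by
    intro c hc
    rw [Finset.mem_insert, Finset.mem_singleton] at hc
    rcases hc with rfl | rfl
    · exact ⟨sq30, by decide, fun p hp h => pr30 p hp h, by decide, by decide, by norm_num⟩
    · exact ⟨sq30, by decide, fun p hp h => pr30 p hp h, by decide, by decide, by norm_num⟩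
  one := by decide
  lt := by decide
  cls := by
    intro m hm
    have a1 := red m 0 2 (by norm_num) (hm 2 Nat.prime_two (by norm_num) 0)
    have a2 := red m 0 3 (by norm_num) (hm 3 Nat.prime_three (by norm_num) 0)
    have a3 := red m 2 3 (by norm_num) (hm 3 Nat.prime_three (by norm_num) 1)
    have a4 := red m 0 5 (by norm_num) (hm 5 Nat.prime_five (by norm_num) 0)
    have a5 := red m 2 5 (by norm_num) (hm 5 Nat.prime_five (by norm_num) 1)
    have a6 := red m 6 5 (by norm_num) (hm 5 Nat.prime_five (by norm_num) 2)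
    have key : ∀ s ∈ Finset.range 30, (¬ 2 ∣ s + 0 ∧ ¬ 3 ∣ s + 0 ∧ ¬ 3 ∣ s + 2 ∧ ¬ 5 ∣ s + 0 ∧ ¬ 5 ∣ s + 2 ∧ ¬ 5 ∣ s + 6) → s ∈ ({11, 17} : Finset ℕ) := by decide
    exact key _ (Finset.mem_range.2 (Nat.mod_lt _ (by norm_num))) ⟨a1, a2, a3, a4, a5, a6⟩
  dif := by
    intro p hp hM i j hij
    apply dif30 p hp hM
    revert i j
    decide
  zero := ⟨0, rfl⟩
  pos := by norm_num

lemma num_h (m : ℕ) (i : Fin 4) : num (m + 2) i = m + h i := by
  unfold num h
  fin_cases i <;> simp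

/-- in the window all the sifted numbers are represented -/
lemma good_iff {n r m : ℕ} (h4 : ¬ 4 ∣ n) (h30 : (30 : ℝ) < (n : ℝ) ^ (1 / (r : ℝ))) (hm : 0 < m)
    (h1 : 29 * n ≤ (m + 2) ^ 2) (h2 : (m + 2) ^ 2 ≤ 30 * n) :
    Good n r (m + 2) ↔ Pool.Agent.Y879.PR.PG h n r m := by
  unfold Good Pool.Agent.Y879.PR.PG
  simp only [num_h]
  constructor
  · exact fun H => H.2.2
  · intro H
    refine ⟨by omega, ?_, H⟩
    have hc : Nat.Coprime (m + 2) 30 := by
      apply Nat.Coprime.symm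
      rw [Nat.coprime_iff_gcd_eq_one]
      by_contra hne
      obtain ⟨q, hq, hq1, hq2⟩ := Nat.Prime.not_coprime_iff_dvd.1 hne
      have hq30 : q ≤ 30 := Nat.le_of_dvd (by norm_num) hq1
      have hq30' : (q : ℝ) ≤ 30 := by exact_mod_cast hq30
      exact H q hq (hq30'.trans h30.le) 1 hq2
    obtain ⟨x, y, z, w, h3, h5⟩ := Pool.Agent.H141R2.FS.rep h4 hc h1 h2
    exact ⟨x, y, z, w, h3, h5.symm⟩

/-- the window, shifted by `2` -/
lemma mem_window {A L p : ℕ} (hA : 2 ≤ A) : p ∈ Ioc A (A + L) ↔ ∃ m ∈ Ioc (A - 2) (A - 2 + L), m + 2 = p := by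
  constructor
  · intro h
    rw [mem_Ioc] at h
    exact ⟨p - 2, by rw [mem_Ioc]; omega, by omega⟩
  · rintro ⟨m, hm, rfl⟩
    rw [mem_Ioc] at hm ⊢
    omega

/-- transfer of a count -/
lemma card_shift {A L : ℕ} (hA : 2 ≤ A) (f g : ℕ → Prop) [DecidablePred f] [DecidablePred g]
    (h : ∀ m ∈ Ioc (A - 2) (A - 2 + L), f (m + 2) ↔ g m) :
    ((Ioc A (A + L)).filter f).card = ((Ioc (A - 2) (A - 2 + L)).filter g).card := by
  symm
  apply card_bij (fun m _ => m + 2)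
  · intro m hm
    rw [mem_filter] at hm ⊢
    exact ⟨(mem_window hA).2 ⟨m, hm.1, rfl⟩, (h m hm.1).2 hm.2⟩
  · intro a _ b _ hab
    simpa using hab
  · intro p hp
    rw [mem_filter] at hp
    obtain ⟨m, hm, rfl⟩ := (mem_window hA).1 hp.1
    exact ⟨m, mem_filter.2 ⟨hm, (h m hm).1 hp.2⟩, rfl⟩

open Classical in
lemma card_P {n r A L : ℕ} (h4 : ¬ 4 ∣ n) (h30 : (30 : ℝ) < (n : ℝ) ^ (1 / (r : ℝ))) (hn : 1 ≤ n)
    (h1 : 29 * n ≤ A ^ 2) (h2 : (A + L) ^ 2 ≤ 30 * n) (i : Fin 4) :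
    (P n r i A L).card = (Pool.Agent.Y879.PR.PP h n r i (A - 2) L).card := by
  have hA : 2 ≤ A := by nlinarith
  unfold P Pool.Agent.Y879.PR.PP
  apply card_shift hA (fun p => (num p i).Prime ∧ Good n r p)
    (fun m => (m + h i).Prime ∧ Pool.Agent.Y879.PR.PG h n r m)
  intro m hm
  rw [mem_Ioc] at hm
  have hm1 : A ≤ m + 2 := by omega
  have hm2 : m + 2 ≤ A + L := by omega
  have e1 : 29 * n ≤ (m + 2) ^ 2 := h1.trans (Nat.pow_le_pow_left hm1 2)
  have e2 : (m + 2) ^ 2 ≤ 30 * n := (Nat.pow_le_pow_left hm2 2).trans h2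
  rw [good_iff h4 h30 (by omega) e1 e2, num_h]

open Classical in
lemma next_eq {n r T m : ℕ} (h4 : ¬ 4 ∣ n) (h30 : (30 : ℝ) < (n : ℝ) ^ (1 / (r : ℝ)))
    (h1 : 29 * n ≤ (m + 2) ^ 2) (h2 : (m + 2 + 30 * T) ^ 2 ≤ 30 * n) :
    Next n r T (m + 2) = Pool.Agent.Y879.PR.PNext h 30 n r T m := by
  unfold Next Pool.Agent.Y879.PR.PNext
  symm
  apply card_bij (fun l _ => l + 2)
  · intro l hl
    rw [mem_filter, mem_Ioc] at hl ⊢
    obtain ⟨⟨a1, a2⟩, a3, a4⟩ := hl
    have e1 : 29 * n ≤ (l + 2) ^ 2 := h1.trans (Nat.pow_le_pow_left (by omega) 2)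
    have e2 : (l + 2) ^ 2 ≤ 30 * n := (Nat.pow_le_pow_left (by omega) 2).trans h2
    exact ⟨⟨by omega, by omega⟩, by omega, (good_iff h4 h30 (by omega) e1 e2).2 a4⟩
  · intro a _ b _ hab
    simpa using hab
  · intro p hp
    rw [mem_filter, mem_Ioc] at hp
    obtain ⟨⟨a1, a2⟩, a3, a4⟩ := hp
    obtain ⟨l, rfl⟩ : ∃ l, p = l + 2 := ⟨p - 2, by omega⟩
    have e1 : 29 * n ≤ (l + 2) ^ 2 := h1.trans (Nat.pow_le_pow_left (by omega) 2)
    have e2 : (l + 2) ^ 2 ≤ 30 * n := (Nat.pow_le_pow_left (by omega) 2).trans h2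
    refine ⟨l, mem_filter.2 ⟨mem_Ioc.2 ⟨by omega, by omega⟩, by omega,
      (good_iff h4 h30 (by omega) e1 e2).1 a4⟩, rfl⟩

/-- For all `θ > 0`, `0 < ε ≤ 1` and `x₀` there is `r₀` such that for every `r ≥ r₀` and all large `n` not
divisible by `4`: (1) if `29 n ≤ p ^ 2 ≤ 30 n` and `p` is good, the four numbers have at most `r` prime
factors, and conversely `p` is good if the four numbers are primes `> n ^ (1/r)`; (2) for all `A`, `L`
with `29 n ≤ A ^ 2`, `(A + L) ^ 2 ≤ 30 n`, `L ≥ θ √n` and all four `i` the number of elements of `P`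
is `(1 + η) (L / 15) W / log X`, `X = ⌊√(30 n)⌋`, `|η| ≤ ε`; (3) if moreover `T V ≤ x₀` and
`(A + L + 30 T) ^ 2 ≤ 30 n`, then `Next`, `p` running over `P`, has the Poisson law of mean `T V`, up to
`ε`. -/
theorem result (θ : ℝ) (hθ : 0 < θ) (x₀ ε : ℝ) (hε : 0 < ε) (hε1 : ε ≤ 1) :
    ∃ r₀ : ℕ, ∀ r : ℕ, r₀ ≤ r → ∃ n₀ : ℕ, ∀ n : ℕ, n₀ ≤ n → ¬ 4 ∣ n →
      (∀ p : ℕ, 29 * n ≤ p ^ 2 → p ^ 2 ≤ 30 * n →
        (Good n r p → ∀ i, (num p i).primeFactorsList.length ≤ r) ∧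
        ((∀ i, (num p i).Prime ∧ (n : ℝ) ^ (1 / (r : ℝ)) < num p i) → Good n r p)) ∧
      0 < W n r ∧
      ∀ (i : Fin 4) (A L : ℕ), 29 * n ≤ A ^ 2 → (A + L) ^ 2 ≤ 30 * n → θ * √n ≤ L →
        |((P n r i A L).card : ℝ) * Real.log (Nat.sqrt (30 * n)) - L / 15 * W n r| ≤ ε * (L / 15 * W n r) ∧
        ∀ T : ℕ, T * V n r ≤ x₀ → (A + L + 30 * T) ^ 2 ≤ 30 * n → ∀ B : Finset ℕ,
          |(((P n r i A L).filter (fun p => Next n r T p ∈ B)).card : ℝ) -
            (P n r i A L).card * ∑ j ∈ B, Real.exp (-(T * V n r)) * (T * V n r) ^ j / j.factorial| ≤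
              ε * (P n r i A L).card := by
  classical
  obtain ⟨r₀, hr₀, H⟩ := Pool.Agent.Y879.PR.pat_main pat_h ⟨11, by simp⟩ (1 / 2) (min (θ / 6) 1)
    (by norm_num) (by positivity) (min_le_right _ _) x₀ ε hε hε1
  refine ⟨r₀, fun r hr => ?_⟩
  obtain ⟨N₀, H⟩ := H r hr
  refine ⟨max N₀ 100, fun n hn h4 => ?_⟩
  obtain ⟨H1, -, H3, -, H5, H6⟩ := H n ((le_max_left _ _).trans hn)
  have hn100 : 100 ≤ n := (le_max_right _ _).trans hn
  have hnR : (100 : ℝ) ≤ n := by exact_mod_cast hn100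
  have hW : Pool.Agent.Y879.PR.PW 30 4 n r = W n r := rfl
  have hV : Pool.Agent.Y879.PR.PV 30 4 n r = V n r := rfl
  rw [hW] at H3
  refine ⟨?_, H3, ?_⟩
  · intro p hp1 hp2
    have hp : 2 < p := by nlinarith
    obtain ⟨m, rfl⟩ : ∃ m, p = m + 2 := ⟨p - 2, by omega⟩
    constructor
    · intro hg i
      rw [num_h]
      apply H1 m ?_ ((good_iff h4 H5 (by omega) hp1 hp2).1 hg) i
      by_contra hcon
      push Not at hcon
      nlinarith
    · intro hpr
      rw [good_iff h4 H5 (by omega) hp1 hp2]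
      intro q hq hqn i hd
      have h1 := (hpr i).1
      have h2 := (hpr i).2
      rw [num_h] at h1 h2
      rw [(Nat.prime_dvd_prime_iff_eq hq h1).1 hd] at hqn
      linarith
  · intro i A L hA hL hθL
    have hAL : A + L ≤ Nat.sqrt (30 * n) := by
      rw [Nat.le_sqrt']
      exact hL
    have hs1 : (n : ℝ) ^ (1 / 2 : ℝ) ≤ (Nat.sqrt (30 * n) : ℕ) := by
      rw [← Real.sqrt_eq_rpow]
      have h1 : Nat.sqrt n ≤ Nat.sqrt (30 * n) := Nat.sqrt_le_sqrt (by omega)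
      have h2 : Nat.sqrt n + 1 ≤ Nat.sqrt (30 * n) := by
        rw [Nat.le_sqrt']
        have h3 : Nat.sqrt n ^ 2 ≤ n := Nat.sqrt_le' n
        nlinarith
      have h3 : √(n : ℝ) ≤ Nat.sqrt n + 1 := by
        apply Real.sqrt_le_iff.2
        refine ⟨by positivity, ?_⟩
        exact_mod_cast (Nat.lt_succ_sqrt' n).le
      refine h3.trans ?_
      exact_mod_cast h2
    have hs2 : ((Nat.sqrt (30 * n) : ℕ) : ℝ) ≤ 6 * √n := by
      have h1 : ((Nat.sqrt (30 * n) : ℕ) : ℝ) ^ 2 ≤ 30 * n := by exact_mod_cast Nat.sqrt_le' (30 * n)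
      have h2 : (6 * √(n : ℝ)) ^ 2 = 36 * n := by
        rw [mul_pow, Real.sq_sqrt (by positivity)]
        norm_num
      apply (pow_le_pow_iff_left₀ (by positivity) (by positivity) two_ne_zero).1
      rw [h2]
      linarith
    have hδ : min (θ / 6) 1 * ((Nat.sqrt (30 * n) : ℕ) : ℝ) ≤ L := by
      calc min (θ / 6) 1 * ((Nat.sqrt (30 * n) : ℕ) : ℝ) ≤ θ / 6 * (6 * √n) := by
            apply mul_le_mul (min_le_left _ _) hs2 (by positivity) (by positivity)
        _ = θ * √n := by ring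
        _ ≤ L := hθL
    obtain ⟨G1, G2⟩ := H6 i (Nat.sqrt (30 * n)) hs1 (A - 2) L hδ (by omega)
    have hc := card_P h4 H5 (by omega) hA hL i
    have hC : ((({11, 17} : Finset ℕ).card : ℕ) : ℝ) = 2 := by norm_num
    rw [hW, hC] at G1
    refine ⟨?_, ?_⟩
    · rw [hc]
      have e : (2 : ℝ) * (L / (30 : ℕ) * W n r) = L / 15 * W n r := by
        push_cast
        ring
      rw [e] at G1
      exact G1
    · intro T hT hTT B
      have hA2 : 2 ≤ A := by nlinarith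
      have hc2 : ((P n r i A L).filter (fun p => Next n r T p ∈ B)).card =
          ((Pool.Agent.Y879.PR.PP h n r i (A - 2) L).filter
            (fun m => Pool.Agent.Y879.PR.PNext h 30 n r T m ∈ B)).card := by
        unfold P Pool.Agent.Y879.PR.PP
        rw [filter_filter, filter_filter]
        apply card_shift hA2 (fun p => ((num p i).Prime ∧ Good n r p) ∧ Next n r T p ∈ B)
          (fun m => ((m + h i).Prime ∧ Pool.Agent.Y879.PR.PG h n r m) ∧
            Pool.Agent.Y879.PR.PNext h 30 n r T m ∈ B)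
        intro m hm
        rw [mem_Ioc] at hm
        have e1 : 29 * n ≤ (m + 2) ^ 2 := hA.trans (Nat.pow_le_pow_left (by omega) 2)
        have e2 : (m + 2) ^ 2 ≤ 30 * n := (Nat.pow_le_pow_left (by omega) 2).trans hL
        have e3 : (m + 2 + 30 * T) ^ 2 ≤ 30 * n := (Nat.pow_le_pow_left (by omega) 2).trans hTT
        rw [good_iff h4 H5 (by omega) e1 e2, num_h, next_eq h4 H5 e1 e3]
      rw [hV] at G2
      rw [hc2, hc]
      exact G2 T hT B

end Pool.Agent.Results.MP_40574a_nt.RepresentedPrimesLaw
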