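import Pool.Agent.Y816.PD.UniJ
import Pool.Agent.H141R2.FS.Main1

set_option autoImplicit false

/-!
# Four squares whose linear form starts an almost prime quadruple with restricted digits, in short windows

For every large `n` which is not divisible by `4` the quadruples `p - 2, p, p + 4, p + 10` of almost primes with
`p = x + 2 y + 5 z`, `n = x ^ 2 + y ^ 2 + z ^ 2 + w ^ 2`, are counted in every window `(B, B + L]` between
`sqrt (29 n)` and `sqrt (30 n)` with `n ≤ L ^ E`, where the `i`-th digit of `p - 2` in base `b` belongs to an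
arbitrary set `A i` for all `i < K`, `K = log_b (L / 3)` (integer part), the product of the `|A i|` being at least
`exp (- c K) b ^ K`.
-/

namespace Pool.Agent.Results.MP_40574a_nt.RestrictedDigits

open Finset Filter
open Pool.Agent.Y816.PD (NA DC)

/-- `p` is the value of `x + 2 y + 5 z` at a representation `n = x ^ 2 + y ^ 2 + z ^ 2 + w ^ 2` with natural
numbers `x, y, z, w`. -/
def Val (n p : ℕ) : Prop := ∃ x y z w : ℕ, n = x ^ 2 + y ^ 2 + z ^ 2 + w ^ 2 ∧ p = x + 2 * y + 5 * z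

/-- The `m` for which `m, m + 2, m + 6, m + 12` belong to `(B, B + L]`, have at most `r` prime factors each, all of
them larger than `t ^ (1 / r)`, and `m + 2 = x + 2 y + 5 z` for some natural numbers `x, y, z, w` with
`n = x ^ 2 + y ^ 2 + z ^ 2 + w ^ 2`. -/
def Q (n B L r t : ℕ) : Set ℕ := {m | B < m ∧ m + 12 ≤ B + L ∧ Val n (m + 2) ∧
  ∀ h ∈ ({0, 2, 6, 12} : Finset ℕ), (∀ q : ℕ, q.Prime → q ∣ m + h → t < q ^ r) ∧
    (m + h).primeFactorsList.length ≤ r}

/-- The `m ∈ (B, B + L]` for which `m, m + 2, m + 6, m + 12` are primes. -/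
def T (B L : ℕ) : Set ℕ := {m | (B < m ∧ m ≤ B + L) ∧ ∀ h ∈ ({0, 2, 6, 12} : Finset ℕ), (m + h).Prime}

lemma cop (b K r m : ℕ) (hb : 2 ≤ b) (hr : 3 * r ≤ K) (h : ∀ q : ℕ, q.Prime → q ∣ m → b ^ K < q ^ r) :
    Nat.Coprime m 30 := by
  have h5 : ∀ q : ℕ, q.Prime → q ∣ m → 5 < q := by
    intro q hq hd
    by_contra hc
    push Not at hc
    have h1 : q ^ r ≤ 8 ^ r := Nat.pow_le_pow_left (by omega) r
    have h2 : 8 ^ r ≤ b ^ K := by
      calc 8 ^ r = 2 ^ (3 * r) := by rw [pow_mul]; norm_num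
        _ ≤ 2 ^ K := Nat.pow_le_pow_right (by norm_num) hr
        _ ≤ b ^ K := Nat.pow_le_pow_left hb K
    exact absurd (h q hq hd) (not_lt.2 (h1.trans h2))
  rw [Nat.Coprime]
  by_contra hg
  obtain ⟨q, hq, hqd⟩ := Nat.exists_prime_and_dvd hg
  have h6 := h5 q hq (hqd.trans (Nat.gcd_dvd_left _ _))
  have h7 : q ∣ 30 := hqd.trans (Nat.gcd_dvd_right _ _)
  have h8 : q ∣ 2 * (3 * 5) := by simpa using h7
  rcases (Nat.Prime.dvd_mul hq).1 h8 with h9 | h9
  · have := Nat.le_of_dvd (by norm_num) h9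
    omega
  · rcases (Nat.Prime.dvd_mul hq).1 h9 with h9 | h9
    · have := Nat.le_of_dvd (by norm_num) h9
      omega
    · have := Nat.le_of_dvd (by norm_num) h9
      omega

/-- **Four squares whose linear form starts an almost prime quadruple with restricted digits.** -/
theorem result (E : ℕ) :
    ∃ c : ℝ, 0 < c ∧ ∃ r₀ : ℕ, 2 ≤ r₀ ∧ ∀ r : ℕ, r₀ ≤ r → ∀ b : ℕ, 2 ≤ b → ∃ κ C : ℝ, 0 < κ ∧ 0 < C ∧
      ∀ᶠ n : ℕ in atTop, ¬ 4 ∣ n → ∀ B L : ℕ, 29 * n ≤ B ^ 2 → (B + L) ^ 2 ≤ 30 * n → n ≤ L ^ E →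
        ∀ K : ℕ, K = Nat.log b (L / 3) →
        ∀ A : ℕ → Finset ℕ, (∀ i < K, A i ⊆ range b) → (b : ℝ) ^ K ≤ Real.exp (c * K) * NA K A →
        ((∃ d ∈ A 0, ∀ h ∈ ({0, 2, 6, 12} : Finset ℕ), (d + h).Coprime b) →
          κ * NA K A / (K : ℝ) ^ 4 ≤ DC b K A (Q n B L r (b ^ K))) ∧
        (DC b K A (T B L) : ℝ) ≤ C * NA K A / (K : ℝ) ^ 4 := by
  obtain ⟨c, hc, r₀, hr₀, h⟩ := Pool.Agent.Y816.PD.uni_set {0, 2, 6, 12}
    (Pool.Agent.Y816.PD.adm2 {0, 2, 6, 12} 5 227 (by decide) (by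
      intro h hh
      simp only [mem_insert, mem_singleton] at hh
      rcases hh with rfl | rfl | rfl | rfl <;> norm_num) (by decide)) 4 (by decide) (by norm_num)
    (4 * E + 1)
  refine ⟨c, hc, r₀, hr₀, fun r hr b hb => ?_⟩
  obtain ⟨κ, C, hκ, hC, h1⟩ := h r hr b hb (3 * b)
  refine ⟨κ, C, hκ, hC, ?_⟩
  obtain ⟨K0, hK0⟩ := eventually_atTop.1 h1
  filter_upwards [eventually_gt_atTop ((3 * b ^ (K0 + 3 * r + 6)) ^ E + 1)] with n hn h4 B L hB hBL hnL K hK A hA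
    hprod
  have hb0 : 0 < b := by omega
  have hL : 3 * b ^ (K0 + 3 * r + 6) ≤ L := by
    by_contra hc2
    push Not at hc2
    have := Nat.pow_le_pow_left hc2.le E
    omega
  obtain ⟨hKK, hb1, hb2⟩ := Pool.Agent.Y816.PD.log_three hb (K0 + 3 * r + 6) hL hK
  have e1 : L ≤ b ^ (4 * K) := by
    calc L ≤ 3 * b * b ^ K := hb2
      _ ≤ b ^ 2 * b * b ^ K := by
          apply Nat.mul_le_mul_right
          apply Nat.mul_le_mul_right
          nlinarith
      _ = b ^ (K + 3) := by ring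
      _ ≤ b ^ (4 * K) := Nat.pow_le_pow_right hb0 (by omega)
  have hBx : B ≤ b ^ ((4 * E + 1) * K) := by
    have h30 : 30 ≤ b ^ K := by
      calc 30 ≤ 2 ^ 5 := by norm_num
        _ ≤ b ^ 5 := Nat.pow_le_pow_left hb 5
        _ ≤ b ^ K := Nat.pow_le_pow_right hb0 (by omega)
    have hB2 : B ≤ 30 * n := by
      calc B ≤ B + L := Nat.le_add_right _ _
        _ ≤ (B + L) ^ 2 := Nat.le_self_pow (by norm_num) _
        _ ≤ 30 * n := hBL
    calc B ≤ 30 * n := hB2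
      _ ≤ b ^ K * L ^ E := Nat.mul_le_mul h30 hnL
      _ ≤ b ^ K * (b ^ (4 * K)) ^ E := Nat.mul_le_mul_left _ (Nat.pow_le_pow_left e1 E)
      _ = b ^ ((4 * E + 1) * K) := by rw [← pow_mul, ← pow_add]; congr 1; ring
  obtain ⟨h2, h3⟩ := hK0 K (by omega) (Set.Ioc B (B + L)) B (L + 1) (L + 1) (by omega) le_rfl
    (by
      have h4 : L / 3 < b ^ (K + 1) := by
        rw [hK]
        exact Nat.lt_pow_succ_log_self (by omega) _
      have h5 : L < 3 * b ^ (K + 1) := by omega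
      have h6 : 3 * b ^ (K + 1) = 3 * b * b ^ K := by ring
      rw [← h6]
      exact h5)
    hBx (fun m hm1 hm2 => ⟨hm1, by omega⟩) (fun m hm => ⟨hm.1, by have := hm.2; omega⟩) A hA hprod
  constructor
  · intro hd
    refine (h2 hd).trans (Nat.cast_le.2 ?_)
    unfold DC
    apply Set.ncard_le_ncard
    · rintro m ⟨⟨hm1, hm2⟩, hmd⟩
      refine ⟨⟨hm1.1, ?_, ?_, fun h hh => (hm2 h hh).2⟩, hmd⟩
      · exact (hm2 12 (by simp)).1.2
      · have h5 := (hm2 2 (by simp)).2.1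
        have hcop := cop b K r (m + 2) hb (by omega) h5
        obtain ⟨x, y, z, w, h6, h7⟩ := Pool.Agent.H141R2.FS.rep h4 hcop (p := m + 2)
          (hB.trans (Nat.pow_le_pow_left (by have := hm1.1; omega) 2))
          (le_trans (Nat.pow_le_pow_left (hm2 2 (by simp)).1.2 2) hBL)
        exact ⟨x, y, z, w, h6, h7.symm⟩
    · apply (finite_toSet (Ioc B (B + L))).subset
      rintro m ⟨⟨hm1, hm2, -⟩, -⟩
      rw [mem_coe, mem_Ioc]
      exact ⟨hm1, by omega⟩
  · exact h3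

end Pool.Agent.Results.MP_40574a_nt.RestrictedDigits
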